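import Pool.Agent.helper69.LN.GSpec

/-! Row GST: circuits with the arbitrary gates frozen. -/

set_option autoImplicit false

namespace Pool.Agent.LN

open Finset Pool.Agent.helper38.Neg Pool.Agent.helper55.NT Pool.Agent.helper83.Comb

theorem GST_snoc {N : ℕ} (u v : Fin N → ℝ) (a c : ℝ) (h : u ≤ v) (h' : a ≤ c) :
    (Fin.snoc (α := fun _ => ℝ) u a : Fin (N + 1) → ℝ) ≤ Fin.snoc (α := fun _ => ℝ) v c := by
  intro k
  induction k using Fin.lastCases with
  | last => rw [Fin.snoc_last, Fin.snoc_last]; exact h'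
  | cast k => rw [Fin.snoc_castSucc, Fin.snoc_castSucc]; exact h k

theorem GST_mono {n s : ℕ} (C : GC n s) (b x y : Fin n → Bool) (h : x ≤ y) :
    C.star b x ≤ C.star b y := by
  induction C with
  | nil =>
    intro i
    show (if x i = true then (1:ℝ) else 0) ≤ (if y i = true then (1:ℝ) else 0)
    have h1 : x i ≤ y i := h i
    by_cases hx : x i = true
    · have hy : y i = true := by
        rw [hx] at h1
        cases hb : y i
        · rw [hb] at h1; exact absurd h1 (by decide)
        · rfl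
      rw [if_pos hx, if_pos hy]
    · rw [if_neg hx]
      split_ifs <;> norm_num
  | mono C φ hφ i j ih =>
    exact GST_snoc _ _ _ _ ih (hφ _ _ _ _ (ih i) (ih j))
  | free C m w g ih =>
    exact GST_snoc _ _ _ _ ih le_rfl

theorem GST_self {n s : ℕ} (C : GC n s) (b : Fin n → Bool) : C.star b b = C.val b := by
  induction C with
  | nil => rfl
  | mono C φ hφ i j ih =>
    show (Fin.snoc (α := fun _ => ℝ) (C.star b b) (φ (C.star b b i) (C.star b b j)) : _ → ℝ) =
      Fin.snoc (α := fun _ => ℝ) (C.val b) (φ (C.val b i) (C.val b j))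
    rw [ih]
  | free C m w g ih =>
    show (Fin.snoc (α := fun _ => ℝ) (C.star b b) (g fun i => C.val b (w i)) : _ → ℝ) =
      Fin.snoc (α := fun _ => ℝ) (C.val b) (g fun i => C.val b (w i))
    rw [ih]

theorem GST_len {n s : ℕ} (C : GC n s) (x y : Fin n → Bool) :
    (C.pat x).length = (C.pat y).length := by
  induction C with
  | nil => rfl
  | mono C φ hφ i j ih => exact ih
  | free C m w g ih =>
    show (C.pat x ++ List.ofFn fun i => C.val x (w i)).length =
      (C.pat y ++ List.ofFn fun i => C.val y (w i)).length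
    simp [ih]

theorem GST_split {n s : ℕ} (C : GC n s) (m : ℕ) (w : Fin m → Fin (n + s))
    (g : (Fin m → ℝ) → ℝ) (x y : Fin n → Bool)
    (h : (GC.free C m w g).pat x = (GC.free C m w g).pat y) :
    C.pat x = C.pat y ∧ ∀ i, C.val x (w i) = C.val y (w i) := by
  have h1 : (C.pat x ++ List.ofFn fun i => C.val x (w i)) =
      C.pat y ++ List.ofFn fun i => C.val y (w i) := h
  obtain ⟨h2, h3⟩ := List.append_inj h1 (GST_len C x y)
  exact ⟨h2, fun i => congrFun (List.ofFn_injective h3) i⟩

theorem GST_eq {n s : ℕ} (C : GC n s) (b x : Fin n → Bool) (h : C.pat x = C.pat b) :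
    C.star b x = C.val x ∧ ∀ i ∈ C.rd, C.val x i = C.val b i := by
  induction C with
  | nil => exact ⟨rfl, fun i hi => absurd hi (Set.notMem_empty i)⟩
  | mono C φ hφ i j ih =>
    obtain ⟨h1, h2⟩ := ih h
    constructor
    · show (Fin.snoc (α := fun _ => ℝ) (C.star b x) (φ (C.star b x i) (C.star b x j)) : _ → ℝ) =
        Fin.snoc (α := fun _ => ℝ) (C.val x) (φ (C.val x i) (C.val x j))
      rw [h1]
    · rintro k ⟨k, hk, rfl⟩
      show (Fin.snoc (α := fun _ => ℝ) (C.val x) (φ (C.val x i) (C.val x j)) : _ → ℝ) _ =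
        (Fin.snoc (α := fun _ => ℝ) (C.val b) (φ (C.val b i) (C.val b j)) : _ → ℝ) _
      rw [Fin.snoc_castSucc, Fin.snoc_castSucc]
      exact h2 k hk
  | free C m w g ih =>
    obtain ⟨h0, h3⟩ := GST_split C m w g x b h
    obtain ⟨h1, h2⟩ := ih h0
    constructor
    · show (Fin.snoc (α := fun _ => ℝ) (C.star b x) (g fun i => C.val b (w i)) : _ → ℝ) =
        Fin.snoc (α := fun _ => ℝ) (C.val x) (g fun i => C.val x (w i))
      rw [h1, show (fun i => C.val b (w i)) = fun i => C.val x (w i) from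
        funext fun i => (h3 i).symm]
    · rintro k ⟨k, hk, rfl⟩
      show (Fin.snoc (α := fun _ => ℝ) (C.val x) (g fun i => C.val x (w i)) : _ → ℝ) _ =
        (Fin.snoc (α := fun _ => ℝ) (C.val b) (g fun i => C.val b (w i)) : _ → ℝ) _
      rw [Fin.snoc_castSucc, Fin.snoc_castSucc]
      rcases hk with hk | ⟨i, rfl⟩
      · exact h2 k hk
      · exact h3 i

theorem GST_ne {n s : ℕ} (C : GC n s) (b x : Fin n → Bool) (hbx : b ≤ x)
    (h : C.pat x ≠ C.pat b) : ∃ i ∈ C.rd, C.val b i < C.star b x i := by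
  induction C with
  | nil => exact absurd rfl h
  | mono C φ hφ i j ih =>
    obtain ⟨k, hk, hlt⟩ := ih h
    refine ⟨Fin.castSucc k, ⟨k, hk, rfl⟩, ?_⟩
    show (Fin.snoc (α := fun _ => ℝ) (C.val b) (φ (C.val b i) (C.val b j)) : _ → ℝ) _ <
      (Fin.snoc (α := fun _ => ℝ) (C.star b x) (φ (C.star b x i) (C.star b x j)) : _ → ℝ) _
    rw [Fin.snoc_castSucc, Fin.snoc_castSucc]
    exact hlt
  | free C m w g ih =>
    have key : ∃ k ∈ C.rd ∪ Set.range w, C.val b k < C.star b x k := by
      by_cases hp : C.pat x = C.pat b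
      · have h1 : ∃ i, C.val x (w i) ≠ C.val b (w i) := by
          by_contra hcon
          push Not at hcon
          apply h
          show (C.pat x ++ List.ofFn fun i => C.val x (w i)) =
            C.pat b ++ List.ofFn fun i => C.val b (w i)
          rw [hp, show (fun i => C.val x (w i)) = fun i => C.val b (w i) from funext hcon]
        obtain ⟨i, hi⟩ := h1
        refine ⟨w i, Or.inr ⟨i, rfl⟩, ?_⟩
        have h2 := (GST_eq C b x hp).1
        have h3 := GST_mono C b b x hbx (w i)
        rw [GST_self, h2] at h3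
        rw [h2]
        exact lt_of_le_of_ne h3 (Ne.symm hi)
      · obtain ⟨k, hk, hlt⟩ := ih hp
        exact ⟨k, Or.inl hk, hlt⟩
    obtain ⟨k, hk, hlt⟩ := key
    refine ⟨Fin.castSucc k, ⟨k, hk, rfl⟩, ?_⟩
    show (Fin.snoc (α := fun _ => ℝ) (C.val b) (g fun i => C.val b (w i)) : _ → ℝ) _ <
      (Fin.snoc (α := fun _ => ℝ) (C.star b x) (g fun i => C.val b (w i)) : _ → ℝ) _
    rw [Fin.snoc_castSucc, Fin.snoc_castSucc]
    exact hlt

theorem GST_conv {n s : ℕ} (C : GC n s) (x y z : Fin n → Bool) (hxy : x ≤ y) (hyz : y ≤ z)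
    (h : C.pat x = C.pat z) : C.pat y = C.pat x := by
  induction C with
  | nil => rfl
  | mono C φ hφ i j ih => exact ih h
  | free C m w g ih =>
    obtain ⟨h0, h3⟩ := GST_split C m w g x z h
    have h1 := ih h0
    have e1 := (GST_eq C x y h1).1
    have e2 := (GST_eq C x z h0.symm).1
    have l1 := GST_mono C x x y hxy
    have l2 := GST_mono C x y z hyz
    rw [GST_self, e1] at l1
    rw [e1, e2] at l2
    have h4 : (fun i => C.val y (w i)) = fun i => C.val x (w i) := by
      funext i
      exact le_antisymm ((l2 (w i)).trans (h3 i).symm.le) (l1 (w i))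
    show (C.pat y ++ List.ofFn fun i => C.val y (w i)) =
      C.pat x ++ List.ofFn fun i => C.val x (w i)
    rw [h1, h4]

theorem GST : GST_stmt := fun _ _ C =>
  ⟨GST_mono C, GST_self C, GST_eq C, GST_ne C, GST_conv C⟩

end Pool.Agent.LN
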