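import Pool.Agent.helper69.LN.Spec

/-! Row SFC: straight line computations give circuits. -/

set_option autoImplicit false

namespace Pool.Agent.LN

open Finset Pool.Agent.helper38.Neg Pool.Agent.helper55.NT

theorem SFC_aux {n u : ℕ} {L : List (Fn n)} (h : SF u L) :
    ∃ C : Circuit n L.length, FreeOf u C ∧ ∀ f, Op L f → ∃ k, ∀ x, C.val x k = f x := by
  have key : ∀ (L : List (Fn n)) (C : Circuit n L.length)
      (hC : ∀ f, Op L f → ∃ k, ∀ x, C.val x k = f x) (g : Gate (n + L.length))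
      (F : Fn n) (_ : ∀ x, g.eval (C.val x) = F x),
      ∀ f, Op (F :: L) f → ∃ k, ∀ x, (Circuit.snoc C g).val x k = f x := by
    intro L C hC g F hF
    have hold : ∀ f, Op L f → ∃ k, ∀ x, (Circuit.snoc C g).val x k = f x := by
      intro f hf
      obtain ⟨k, hk⟩ := hC f hf
      refine ⟨Fin.castSucc k, fun x => ?_⟩
      rw [← hk x]
      simp [Circuit.val]
    intro f hf
    rcases hf with hf | hf
    · rcases List.mem_cons.1 hf with rfl | hf
      · refine ⟨Fin.last (n + L.length), fun x => ?_⟩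
        rw [← hF x]
        simp [Circuit.val]
      · exact hold f (Or.inl hf)
    · exact hold f (Or.inr hf)
  induction h with
  | nil =>
    refine ⟨Circuit.nil, fun x y _ => rfl, ?_⟩
    rintro f (hf | ⟨i, rfl⟩)
    · simp at hf
    · exact ⟨i, fun x => rfl⟩
  | @const L b _ ih =>
    obtain ⟨C, hr, hC⟩ := ih
    exact ⟨Circuit.snoc C (Gate.const b), fun x y h => hr x y h,
      key L C hC (Gate.const b) _ (fun x => rfl)⟩
  | @and L f g _ hu hv ih =>
    obtain ⟨C, hr, hC⟩ := ih
    obtain ⟨i, hi⟩ := hC f hu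
    obtain ⟨j, hj⟩ := hC g hv
    exact ⟨Circuit.snoc C (Gate.and i j), fun x y h => hr x y h,
      key L C hC (Gate.and i j) _ (fun x => by simp [Gate.eval, hi, hj])⟩
  | @or L f g _ hu hv ih =>
    obtain ⟨C, hr, hC⟩ := ih
    obtain ⟨i, hi⟩ := hC f hu
    obtain ⟨j, hj⟩ := hC g hv
    exact ⟨Circuit.snoc C (Gate.or i j), fun x y h => hr x y h,
      key L C hC (Gate.or i j) _ (fun x => by simp [Gate.eval, hi, hj])⟩
  | @not L f _ hu hf ih =>
    obtain ⟨C, hr, hC⟩ := ih
    obtain ⟨i, hi⟩ := hC f hu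
    refine ⟨Circuit.snoc C (Gate.not i), fun x y h => ?_,
      key L C hC (Gate.not i) _ (fun x => by simp [Gate.eval, hi])⟩
    have h1 : C.notVals x = C.notVals y := hr x y h
    show C.notVals x ++ [!(C.val x i)] = C.notVals y ++ [!(C.val y i)]
    rw [h1, hi x, hi y, hf x y h]

theorem SFC : SFC_stmt := fun _ _ _ h => SFC_aux h

end Pool.Agent.LN
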