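import Pool.Agent.helper69.LN.TSpec

/-! Row TSC: straight line computations give circuits in which few NOT gates depend on the first
inputs. -/

set_option autoImplicit false

namespace Pool.Agent.LN

open Finset Pool.Agent.helper38.Neg Pool.Agent.helper55.NT

theorem TSC_len {n s : ℕ} (C : Circuit n s) (x : Fin n → Bool) :
    (C.notVals x).length = C.notCount := by
  induction C with
  | nil => rfl
  | snoc C g ih => cases g <;> simp [Circuit.notVals, Circuit.notCount, ih]

theorem TSC_aux {n u q : ℕ} {L : List (Fn n)} (h : SX u L q) :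
    ∃ C : Circuit n L.length, FewDep u q C ∧ ∀ f, Op L f → ∃ k, ∀ x, C.val x k = f x := by
  have key : ∀ (L : List (Fn n)) (C : Circuit n L.length)
      (hC : ∀ f, Op L f → ∃ k, ∀ x, C.val x k = f x) (g : Gate (n + L.length))
      (F : Fn n) (_ : ∀ x, g.eval (C.val x) = F x),
      ∀ f, Op (F :: L) f → ∃ k, ∀ x, (Circuit.snoc C g).val x k = f x := by
    intro L C hC g F hF
    have hold : ∀ f, Op L f → ∃ k, ∀ x, (Circuit.snoc C g).val x k = f x := by
      intro f hf
      obtain ⟨k, hk⟩ := hC f hf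
      refine ⟨Fin.castSucc k, fun x => ?_⟩
      rw [← hk x]
      simp [Circuit.val]
    intro f hf
    rcases hf with hf | hf
    · rcases List.mem_cons.1 hf with rfl | hf
      · refine ⟨Fin.last (n + L.length), fun x => ?_⟩
        rw [← hF x]
        simp [Circuit.val]
      · exact hold f (Or.inl hf)
    · exact hold f (Or.inr hf)
  induction h with
  | nil =>
    refine ⟨Circuit.nil, ⟨∅, by simp, fun x y _ i _ => rfl⟩, ?_⟩
    rintro f (hf | ⟨i, rfl⟩)
    · simp at hf
    · exact ⟨i, fun x => rfl⟩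
  | @const L q b _ ih =>
    obtain ⟨C, ⟨S, hS, hr⟩, hC⟩ := ih
    exact ⟨Circuit.snoc C (Gate.const b), ⟨S, hS, fun x y h => hr x y h⟩,
      key L C hC (Gate.const b) _ (fun x => rfl)⟩
  | @and L q f g _ hu hv ih =>
    obtain ⟨C, ⟨S, hS, hr⟩, hC⟩ := ih
    obtain ⟨i, hi⟩ := hC f hu
    obtain ⟨j, hj⟩ := hC g hv
    exact ⟨Circuit.snoc C (Gate.and i j), ⟨S, hS, fun x y h => hr x y h⟩,
      key L C hC (Gate.and i j) _ (fun x => by simp [Gate.eval, hi, hj])⟩
  | @or L q f g _ hu hv ih =>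
    obtain ⟨C, ⟨S, hS, hr⟩, hC⟩ := ih
    obtain ⟨i, hi⟩ := hC f hu
    obtain ⟨j, hj⟩ := hC g hv
    exact ⟨Circuit.snoc C (Gate.or i j), ⟨S, hS, fun x y h => hr x y h⟩,
      key L C hC (Gate.or i j) _ (fun x => by simp [Gate.eval, hi, hj])⟩
  | @not0 L q f _ hu hf ih =>
    obtain ⟨C, ⟨S, hS, hr⟩, hC⟩ := ih
    obtain ⟨i, hi⟩ := hC f hu
    refine ⟨Circuit.snoc C (Gate.not i), ⟨S, hS, fun x y h k hk => ?_⟩,
      key L C hC (Gate.not i) _ (fun x => by simp [Gate.eval, hi])⟩
    show (C.notVals x ++ [!(C.val x i)])[k]? = (C.notVals y ++ [!(C.val y i)])[k]?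
    rw [List.getElem?_append, List.getElem?_append, TSC_len, TSC_len, hi x, hi y, hf x y h,
      hr x y h k hk]
  | @not1 L q f _ hu ih =>
    obtain ⟨C, ⟨S, hS, hr⟩, hC⟩ := ih
    obtain ⟨i, hi⟩ := hC f hu
    refine ⟨Circuit.snoc C (Gate.not i), ⟨insert C.notCount S, ?_, fun x y h k hk => ?_⟩,
      key L C hC (Gate.not i) _ (fun x => by simp [Gate.eval, hi])⟩
    · exact (Finset.card_insert_le _ _).trans (by omega)
    · show (C.notVals x ++ [!(C.val x i)])[k]? = (C.notVals y ++ [!(C.val y i)])[k]?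
      rw [Finset.mem_insert, not_or] at hk
      rw [List.getElem?_append, List.getElem?_append, TSC_len, TSC_len, hr x y h k hk.2]
      by_cases hlt : k < C.notCount
      · rw [if_pos hlt, if_pos hlt]
      · rw [if_neg hlt, if_neg hlt, List.getElem?_eq_none (by simp; omega),
          List.getElem?_eq_none (by simp; omega)]

theorem TSC : TSC_stmt := fun _ _ _ _ h => TSC_aux h

end Pool.Agent.LN
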